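import Pool.Agent.Run7.h112.RSpec
import Pool.Agent.Run7.h112.KConn

/-!
# Connected sums of semi-adequate knots

The definitions of the statement are in `Pool.Agent.Run7.h112.Spec` (`crossings`, `crossingNumber`,
`AAdequate`, `BAdequate`, `Adequate`, `connSums`), `Pool.Agent.Run7.h112.RSpec` (`Reduced`) and
`Pool.Agent.Helper454.Kauf.Defs` (`Word`, `IsKnot`, `Isotopic`, `circle`).
-/

set_option autoImplicit false

namespace Pool.Agent.Results.MP_c45b53_gt.SemiadequateHalf

open Pool.Agent.Helper454.Kauf Run7.h112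
open Pool.Agent.Helper82_Alt (crs)

/-- The contribution of a knot diagram: `2 n` if it is adequate with `n` crossings, `n + 2` if not. -/
noncomputable def weight (D : Word) : ℕ :=
  open Classical in if Adequate D then 2 * crossings D else crossings D + 2

theorem red {D : Word} (h : Run7.h112.R.Reduced D) : Pool.Agent.Helper82_Alt.Reduced D := by
  have e : ∀ r, Run7.h112.R.RLab D r → Pool.Agent.Helper82_Alt.RLab D r := by
    intro r hr
    refine ⟨hr.1, hr.2.1, fun t ht => ?_⟩
    have := hr.2.2 t ht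
    revert this
    generalize D[t] = p
    intro this
    cases p <;> exact this
  intro t ht i hi
  obtain ⟨⟨r, h1, h2⟩, r', h3, h4⟩ := h t ht i hi
  exact ⟨⟨r, e r h1, h2⟩, r', e r' h3, h4⟩

/-- **Theorem.** Let `D₁, ..., D_m` be knot diagrams, each of which is adequate or a reduced
semi-adequate diagram with at least one crossing. Then
`2 c(D₁ # ... # D_m) ≥ weight D₁ + ... + weight D_m`. -/
theorem result (Ds : List Word)
    (h : ∀ D ∈ Ds, IsKnot D ∧ (Adequate D ∨
      ((AAdequate D ∨ BAdequate D) ∧ Run7.h112.R.Reduced D ∧ 0 < crossings D))) :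
    (Ds.map weight).sum ≤ 2 * crossingNumber (connSums circle Ds) := by
  have hc : AAdequate circle := ⟨1, AState.birth [] [] 0 _ (AState.death [] [] 0 _ AState.nil)⟩
  have hcc : Closed circle := rfl
  have hcn : circle ≠ [] := by simp [circle]
  have h0 : IsTT (Lam circle) 0 := by
    have := (tt_adequate hcc hcn).2 ⟨hc, hc⟩
    exact this
  have good : ∀ D ∈ Ds, Closed D ∧ D ≠ [] := fun D hD => ⟨(h D hD).1.1, knot_ne (h D hD).1⟩
  obtain ⟨t, ht, hle⟩ := connSums_TT hcc hcn h0 Ds (fun D => (weight D : ℤ)) fun D hD => by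
    obtain ⟨hk, ha⟩ := h D hD
    refine ⟨hk.1, knot_ne hk, ?_⟩
    by_cases hA : Adequate D
    · refine ⟨_, (tt_adequate hk.1 (knot_ne hk)).2 hA, ?_⟩
      rw [weight, if_pos hA, crossings_eq]
      push_cast; exact le_refl _
    · obtain ⟨h1, h2, h3⟩ := ha.resolve_left hA
      rw [crossings_eq] at h3
      obtain ⟨t, h4, h5⟩ := semi_tt' hk.1 (knot_ne hk) (knot_connected hk) (red h2) h1 h3
      refine ⟨t, h4, ?_⟩
      rw [weight, if_neg hA, crossings_eq]
      push_cast; exact h5
  have g := connSums_good hcc hcn Ds good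
  have h1 := tt_le g.1 g.2 ht
  have h2 : (Ds.map fun D => (weight D : ℤ)).sum = (((Ds.map weight).sum : ℕ) : ℤ) := by
    rw [Nat.cast_list_sum, List.map_map]
    rfl
  omega

end Pool.Agent.Results.MP_c45b53_gt.SemiadequateHalf
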