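import Pool.Agent.Run7.h112.CN2

/-!
# Stable additivity of the crossing number

The definitions of the statement are in `Pool.Agent.Run7.h112.Spec` (`crossingNumber`, `Adequate`,
`connSums`) and `Pool.Agent.Helper454.Kauf.Defs` (`Word`, `IsKnot`, `Isotopic`).
-/

set_option autoImplicit false

namespace Pool.Agent.Results.MP_c45b53_gt.StableAdditivity

open Pool.Agent.Helper454.Kauf Run7.h112
open Pool.Agent.Helper82_Alt (crs)

/-- For every knot `K` and every set `𝒮` of adequate knots, `K` has a connected sum `L` with finitely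
many members of `𝒮` such that the crossing number is superadditive for the sums of `L` with
any members of `𝒮`. -/
theorem result (K : Word) (hK : IsKnot K) (𝒮 : Set Word) (h𝒮 : ∀ A ∈ 𝒮, IsKnot A ∧ Adequate A) :
    ∃ As : List Word, (∀ A ∈ As, A ∈ 𝒮) ∧ ∀ Bs : List Word, (∀ B ∈ Bs, B ∈ 𝒮) →
      crossingNumber (connSums K As) + (Bs.map crossingNumber).sum ≤
        crossingNumber (connSums (connSums K As) Bs) := by
  have hKn := knot_ne hK
  obtain ⟨s, hs⟩ := exists_TT (Lam_ne hK.1 hKn)
  have hs0 := hs.nonneg hK.1 hKn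
  have good : ∀ As : List Word, (∀ A ∈ As, A ∈ 𝒮) → ∀ A ∈ As, Closed A ∧ A ≠ [] :=
    fun As hAs A hA => ⟨(h𝒮 A (hAs A hA)).1.1, knot_ne (h𝒮 A (hAs A hA)).1⟩
  have low : ∀ As : List Word, (∀ A ∈ As, A ∈ 𝒮) →
      (As.map crs).sum ≤ crossingNumber (connSums K As) := by
    intro As hAs
    obtain ⟨t, ht, h⟩ := connSums_TT hK.1 hKn hs As (fun A => 2 * (crs A : ℤ)) fun A hA =>
      ⟨(good As hAs A hA).1, (good As hAs A hA).2, _,
        (tt_adequate (good As hAs A hA).1 (good As hAs A hA).2).2 (h𝒮 A (hAs A hA)).2, le_refl _⟩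
    have g := connSums_good hK.1 hKn As (good As hAs)
    have h2 := tt_le g.1 g.2 ht
    have h3 : (As.map fun A => 2 * (crs A : ℤ)).sum = 2 * (((As.map crs).sum : ℕ) : ℤ) := by
      rw [List.sum_map_mul_left]
      congr 1
      rw [Nat.cast_list_sum, List.map_map]
      rfl
    omega
  have hne : ∃ m, ∃ As : List Word, (∀ A ∈ As, A ∈ 𝒮) ∧
      crossingNumber (connSums K As) - (As.map crs).sum = m := ⟨_, [], by simp, rfl⟩
  classical
  obtain ⟨As, hA, hm⟩ := Nat.find_spec hne
  refine ⟨As, hA, fun Bs hB => ?_⟩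
  have hAB : ∀ A ∈ As ++ Bs, A ∈ 𝒮 := by
    intro A h
    rcases List.mem_append.1 h with h | h
    · exact hA A h
    · exact hB A h
  have h3 : Nat.find hne ≤ crossingNumber (connSums K (As ++ Bs)) - ((As ++ Bs).map crs).sum :=
    Nat.find_min' hne ⟨_, hAB, rfl⟩
  rw [← hm, connSums_append, List.map_append, List.sum_append] at h3
  have h4 := low As hA
  have h5 := low _ hAB
  rw [connSums_append, List.map_append, List.sum_append] at h5
  have h6 : Bs.map crossingNumber = Bs.map crs := List.map_congr_left fun B h =>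
    cn_adequate (good Bs hB B h).1 (good Bs hB B h).2 (h𝒮 B (hB B h)).2
  rw [h6]
  omega

end Pool.Agent.Results.MP_c45b53_gt.StableAdditivity
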